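import Mathlib
import Pool.Agent.H1.Glauber1

set_option autoImplicit false
set_option linter.unusedSectionVars false
set_option linter.unusedVariables false

namespace Pool.Agent.Results.MP_eb4d96_pr.Contraction

open Finset Pool.Agent.H1.Glauber

/-- The independent sets of `G`. -/
abbrev Omega {V : Type} (G : SimpleGraph V) : Type := {I : Finset V // G.IsIndepSet (I : Set V)}

open Classical in
/-- The transition matrix of the single-site heat-bath dynamics with fugacities `w`. -/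
noncomputable def glauber {V : Type} [Fintype V] [DecidableEq V] (G : SimpleGraph V) (w : V → ℂ) :
    Matrix (Omega G) (Omega G) ℂ := fun I J =>
  (1 / (Fintype.card V : ℂ)) * ∑ x : V,
    if ∀ y ∈ I.1, ¬ G.Adj x y then
      w x / (1 + w x) * (if J.1 = insert x I.1 then 1 else 0) +
        1 / (1 + w x) * (if J.1 = I.1.erase x then 1 else 0)
    else (if J.1 = I.1.erase x then 1 else 0)

/-- `P` descends along `π` to a linear endomorphism of `F` of spectral radius `< 1`. -/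
def DescendsContracting {E F : Type} [AddCommGroup F] [Module ℂ F] (π : E → F) (P : E → E) : Prop :=
  ∃ Q : Module.End ℂ F, (∀ f : E, Q (π f) = π (P f)) ∧ spectralRadius ℂ Q < 1

/-- The map induced by the matrix `P` on functions modulo constants has spectral radius `< 1`. -/
def SprLtOne {Ω : Type} [Fintype Ω] (P : Matrix Ω Ω ℂ) : Prop :=
  DescendsContracting
    (Submodule.Quotient.mk : (Ω → ℂ) → (Ω → ℂ) ⧸ Submodule.span ℂ {(1 : Ω → ℂ)}) P.mulVec

section Aux

variable {V : Type} [Fintype V] [DecidableEq V] (G : SimpleGraph V) [DecidableRel G.Adj]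

def dd (x : V) (I : Omega G) : Omega G :=
  ⟨I.1.erase x, I.2.mono (by intro y hy; simp at hy ⊢; exact hy.1)⟩

def tt (x : V) (I : Omega G) : Omega G :=
  if h : ∀ y ∈ I.1, ¬ G.Adj x y then
    ⟨insert x I.1, by
      have := I.2
      intro a ha b hb hab
      simp only [Finset.coe_insert, Set.mem_insert_iff, Finset.mem_coe] at ha hb
      rcases ha with rfl | ha <;> rcases hb with rfl | hb
      · exact absurd rfl hab
      · exact h b hb
      · exact fun h' => h a ha h'.symm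
      · exact this ha hb hab⟩
  else dd G x I

open Classical in
lemma glauber_mulVec (w : V → ℂ) (hw : ∀ x, 1 + w x ≠ 0) (F : Omega G → ℂ) :
    (glauber G w).mulVec F = ∑ x : V,
      (((1 - w x / (1 + w x)) / Fintype.card V) • (F ∘ dd G x) +
        ((w x / (1 + w x)) / Fintype.card V) • (F ∘ tt G x)) := by
  funext I
  have key : ∀ (K : Omega G), ∑ J : Omega G, (if J.1 = K.1 then (1 : ℂ) else 0) * F J = F K := by
    intro K
    rw [Finset.sum_eq_single K]
    · simp
    · intro J _ hJ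
      have : J.1 ≠ K.1 := fun h => hJ (Subtype.ext h)
      simp [this]
    · simp
  simp only [Matrix.mulVec, dotProduct, glauber, Finset.sum_apply, Pi.add_apply, Pi.smul_apply,
    Function.comp, smul_eq_mul, Finset.mul_sum, Finset.sum_mul]
  rw [Finset.sum_comm]
  refine Finset.sum_congr rfl fun x _ => ?_
  have h1 : (1 : ℂ) / (1 + w x) = 1 - w x / (1 + w x) := by
    have := hw x
    field_simp; ring
  have kd := key (dd G x I)
  have kt := key (tt G x I)
  by_cases h : ∀ y ∈ I.1, ¬ G.Adj x y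
  · have ht : (tt G x I).1 = insert x I.1 := by unfold tt; rw [dif_pos h]
    rw [ht] at kt
    have hd : (dd G x I).1 = I.1.erase x := rfl
    rw [hd] at kd
    simp only [if_pos h]
    rw [← kd, ← kt, h1, Finset.mul_sum, Finset.mul_sum, ← Finset.sum_add_distrib]
    refine Finset.sum_congr rfl fun J _ => ?_
    ring
  · have ht : tt G x I = dd G x I := by unfold tt; rw [dif_neg h]
    have hd : (dd G x I).1 = I.1.erase x := rfl
    rw [hd] at kd
    simp only [if_neg h]
    rw [ht, ← kd, Finset.mul_sum, Finset.mul_sum, ← Finset.sum_add_distrib]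
    refine Finset.sum_congr rfl fun J _ => ?_
    ring

def Dep (S : Finset V) (F : Omega G → ℂ) : Prop :=
  ∀ I J : Omega G, (∀ y ∈ S, (y ∈ I.1 ↔ y ∈ J.1)) → F I = F J

lemma dep_dd {S : Finset V} {F : Omega G → ℂ} (h : Dep G S F) (x : V) :
    Dep G (S.erase x) (F ∘ dd G x) := by
  intro I J hIJ
  apply h
  intro y hy
  by_cases hyx : y = x
  · simp [dd, hyx]
  · simp [dd, hyx, hIJ y (Finset.mem_erase.2 ⟨hyx, hy⟩)]

lemma dep_tt {S : Finset V} {F : Omega G → ℂ} (h : Dep G S F) (x : V) :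
    Dep G (S.erase x ∪ G.neighborFinset x) (F ∘ tt G x) := by
  intro I J hIJ
  have hfree : (∀ y ∈ I.1, ¬ G.Adj x y) ↔ (∀ y ∈ J.1, ¬ G.Adj x y) := by
    constructor
    · intro h1 y hy hadj
      exact h1 y ((hIJ y (Finset.mem_union_right _ ((SimpleGraph.mem_neighborFinset _ _ _).2 hadj))).2 hy) hadj
    · intro h1 y hy hadj
      exact h1 y ((hIJ y (Finset.mem_union_right _ ((SimpleGraph.mem_neighborFinset _ _ _).2 hadj))).1 hy) hadj
  apply h
  intro y hy
  have h0 : y ≠ x → (y ∈ I.1 ↔ y ∈ J.1) := fun hyx =>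
    hIJ y (Finset.mem_union_left _ (Finset.mem_erase.2 ⟨hyx, hy⟩))
  by_cases h1 : ∀ y ∈ I.1, ¬ G.Adj x y
  · have h2 := hfree.1 h1
    unfold tt
    rw [dif_pos h1, dif_pos h2]
    by_cases hyx : y = x
    · simp [hyx]
    · simp [hyx, h0 hyx]
  · have h2 := fun h' => h1 (hfree.2 h')
    unfold tt
    rw [dif_neg h1, dif_neg h2]
    by_cases hyx : y = x
    · simp [dd, hyx]
    · simp [dd, hyx, h0 hyx]

lemma comp_dd {S : Finset V} {F : Omega G → ℂ} (h : Dep G S F) {x : V} (hx : x ∉ S) :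
    F ∘ dd G x = F := by
  funext I
  apply h
  intro y hy
  have : y ≠ x := fun e => hx (e ▸ hy)
  simp [dd, this]

lemma comp_tt {S : Finset V} {F : Omega G → ℂ} (h : Dep G S F) {x : V} (hx : x ∉ S) :
    F ∘ tt G x = F := by
  funext I
  apply h
  intro y hy
  have : y ≠ x := fun e => hx (e ▸ hy)
  unfold tt
  split_ifs
  · simp [this]
  · simp [dd, this]

inductive Rep (W : Finset V → ℝ) : (Omega G → ℂ) → ℝ → Prop
  | const (c : ℂ) : Rep W (fun _ => c) 0
  | atom (S : Finset V) (F : Omega G → ℂ) (m : ℝ) : S.Nonempty → Dep G S F → 0 ≤ m →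
      (∀ I, ‖F I‖ ≤ m) → Rep W F (W S * m)
  | add (F H : Omega G → ℂ) (r s : ℝ) : Rep W F r → Rep W H s → Rep W (F + H) (r + s)
  | mono (F : Omega G → ℂ) (r s : ℝ) : Rep W F r → r ≤ s → Rep W F s

variable {G}

lemma rep_atom {W : Finset V → ℝ} (hW : ∀ S, 0 < W S) (S : Finset V) (F : Omega G → ℂ) (m : ℝ)
    (h : Dep G S F) (hm : 0 ≤ m) (hF : ∀ I, ‖F I‖ ≤ m) : Rep G W F (W S * m) := by
  rcases S.eq_empty_or_nonempty with rfl | hS
  · have : F = fun _ => F ⟨∅, by simp⟩ := by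
      funext I; apply h; simp
    rw [this]
    exact Rep.mono _ _ _ (Rep.const _) (mul_nonneg (hW _).le hm)
  · exact Rep.atom S F m hS h hm hF

lemma rep_smul {W : Finset V → ℝ} {F : Omega G → ℂ} {r : ℝ} (h : Rep G W F r) (a : ℂ) :
    Rep G W (a • F) (‖a‖ * r) := by
  induction h with
  | const c => rw [mul_zero]; exact Rep.const (G := G) (W := W) (a * c)
  | atom S F m hS hd hm hF =>
    have := Rep.atom (W := W) S (a • F) (‖a‖ * m) hS
      (fun I J hIJ => by simp [hd I J hIJ]) (by positivity)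
      (fun I => by
        rw [Pi.smul_apply, smul_eq_mul, norm_mul]
        exact mul_le_mul_of_nonneg_left (hF I) (norm_nonneg _))
    convert this using 1; ring
  | add F H r s _ _ ih1 ih2 =>
    have := Rep.add _ _ _ _ ih1 ih2
    rw [smul_add, mul_add]; exact this
  | mono F r s _ hrs ih => exact Rep.mono _ _ _ ih (mul_le_mul_of_nonneg_left hrs (norm_nonneg _))

lemma rep_sum {W : Finset V → ℝ} (s : Finset V) (F : V → Omega G → ℂ) (r : V → ℝ)
    (h : ∀ x ∈ s, Rep G W (F x) (r x)) : Rep G W (∑ x ∈ s, F x) (∑ x ∈ s, r x) := by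
  induction s using Finset.induction_on with
  | empty => rw [Finset.sum_empty, Finset.sum_empty]; exact Rep.const (G := G) (W := W) 0
  | insert a s ha ih =>
    rw [Finset.sum_insert ha, Finset.sum_insert ha]
    exact Rep.add _ _ _ _ (h a (Finset.mem_insert_self _ _))
      (ih fun x hx => h x (Finset.mem_insert_of_mem hx))

lemma rep_osc {W : Finset V → ℝ} {c : ℝ} (hc : 0 ≤ c) (hW : ∀ S, c ≤ W S) {F : Omega G → ℂ} {r : ℝ}
    (h : Rep G W F r) (I J : Omega G) : c * ‖F I - F J‖ ≤ 2 * r := by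
  induction h with
  | const c => simp
  | atom S F m hS hd hm hF =>
    have h1 : ‖F I - F J‖ ≤ 2 * m := by
      have := norm_sub_le (F I) (F J)
      linarith [hF I, hF J]
    have h2 := hW S
    calc c * ‖F I - F J‖ ≤ c * (2 * m) := mul_le_mul_of_nonneg_left h1 hc
      _ ≤ W S * (2 * m) := mul_le_mul_of_nonneg_right h2 (by positivity)
      _ = _ := by ring
  | add F H r s _ _ ih1 ih2 =>
    have : (F + H) I - (F + H) J = (F I - F J) + (H I - H J) := by simp; ring
    rw [this]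
    have := mul_le_mul_of_nonneg_left (norm_add_le (F I - F J) (H I - H J)) hc
    linarith
  | mono F r s _ hrs ih => linarith

open Classical in
lemma rep_step [Nonempty V] {W : Finset V → ℝ} (hW : ∀ S, 0 < W S) (w : V → ℂ)
    (hw : ∀ x, 1 + w x ≠ 0) {g : ℝ} (hg0 : 0 ≤ g) (hg : g ≤ 1)
    (hc : ∀ S x, x ∈ S → ‖1 - w x / (1 + w x)‖ * W (S.erase x) +
      ‖w x / (1 + w x)‖ * W (S.erase x ∪ G.neighborFinset x) ≤ g * W S)
    {F : Omega G → ℂ} {r : ℝ} (h : Rep G W F r) :
    Rep G W ((glauber G w).mulVec F) ((1 - (1 - g) / Fintype.card V) * r) := by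
  have hn : (1 : ℝ) ≤ Fintype.card V := by exact_mod_cast Fintype.card_pos
  have hn0 : (0 : ℝ) < Fintype.card V := by linarith
  have hnc : (Fintype.card V : ℂ) ≠ 0 := by exact_mod_cast Fintype.card_pos.ne'
  have hγ : 0 ≤ 1 - (1 - g) / Fintype.card V := by
    rw [sub_nonneg, div_le_one hn0]; linarith
  induction h with
  | const c =>
    have : (glauber G w).mulVec (fun _ => c) = fun _ => c := by
      rw [glauber_mulVec G w hw]
      funext I
      simp only [Finset.sum_apply, Pi.add_apply, Pi.smul_apply, Function.comp, smul_eq_mul]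
      have : ∀ x : V, (1 - w x / (1 + w x)) / (Fintype.card V : ℂ) * c +
          w x / (1 + w x) / (Fintype.card V : ℂ) * c = c / Fintype.card V := fun x => by ring
      simp only [this, Finset.sum_const, Finset.card_univ, nsmul_eq_mul]
      field_simp
    rw [this, mul_zero]
    exact Rep.const c
  | atom S F m hS hd hm hF =>
    rw [glauber_mulVec G w hw]
    refine Rep.mono _ _ _ (rep_sum univ _
      (fun x => (if x ∈ S then g else 1) * (W S * m / Fintype.card V)) ?_) ?_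
    · intro x _
      by_cases hx : x ∈ S
      · have h1 := rep_smul (rep_atom hW _ _ m (dep_dd G hd x) hm (fun I => hF _))
          ((1 - w x / (1 + w x)) / Fintype.card V)
        have h2 := rep_smul (rep_atom hW _ _ m (dep_tt G hd x) hm (fun I => hF _))
          ((w x / (1 + w x)) / Fintype.card V)
        refine Rep.mono _ _ _ (Rep.add _ _ _ _ h1 h2) ?_
        rw [if_pos hx, norm_div (1 - w x / (1 + w x)), norm_div (w x / (1 + w x)), Complex.norm_natCast]
        have := mul_le_mul_of_nonneg_right (hc S x hx) (div_nonneg hm hn0.le)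
        refine le_trans (le_of_eq ?_) (this.trans (le_of_eq ?_)) <;> ring
      · rw [comp_dd G hd hx, comp_tt G hd hx, ← add_smul]
        have h1 := rep_smul (Rep.atom (W := W) S F m hS hd hm hF)
          ((1 - w x / (1 + w x)) / Fintype.card V + (w x / (1 + w x)) / Fintype.card V)
        refine Rep.mono _ _ _ h1 (le_of_eq ?_)
        have : (1 - w x / (1 + w x)) / (Fintype.card V : ℂ) + (w x / (1 + w x)) / Fintype.card V =
          1 / Fintype.card V := by ring
        rw [this, if_neg hx, norm_div, Complex.norm_natCast, norm_one]; ring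
    · rw [← Finset.sum_mul]
      obtain ⟨x0, hx0⟩ := hS
      have h1 : ∑ x : V, (if x ∈ S then g else 1) ≤ Fintype.card V - (1 - g) := by
        rw [← Finset.sum_erase_add _ _ (Finset.mem_univ x0), if_pos hx0]
        have : ∑ x ∈ univ.erase x0, (if x ∈ S then g else 1) ≤ ∑ x ∈ univ.erase x0, (1 : ℝ) :=
          Finset.sum_le_sum fun x _ => by split_ifs <;> linarith
        rw [Finset.sum_const, Finset.card_erase_of_mem (Finset.mem_univ _), nsmul_eq_mul,
          Finset.card_univ, Nat.cast_sub Fintype.card_pos] at this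
        rw [Nat.cast_one, mul_one] at this
        linarith
      have h2 : 0 ≤ W S * m / Fintype.card V := div_nonneg (mul_nonneg (hW S).le hm) hn0.le
      refine (mul_le_mul_of_nonneg_right h1 h2).trans (le_of_eq ?_)
      field_simp
  | add F H r s _ _ ih1 ih2 =>
    rw [Matrix.mulVec_add, mul_add]; exact Rep.add _ _ _ _ ih1 ih2
  | mono F r s _ hrs ih => exact Rep.mono _ _ _ ih (mul_le_mul_of_nonneg_left hrs hγ)

lemma contr (Δ : ℕ) (hΔ : 2 ≤ Δ) (hG : ∀ v, G.degree v ≤ Δ) (p : ℂ) (p0 : ℝ) (h0 : 0 ≤ p0)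
    (h1 : p0 * Δ ≤ 1) (hp : ‖p - p0‖ ≤ 1 / (24 * 512 * Δ ^ 6)) (S : Finset V) (x : V) (hx : x ∈ S) :
    ‖1 - p‖ * Real.exp (1 / (64 * Δ ^ 4) * phi G (1 / (8 * Δ)) (1 / (8 * Δ ^ 2)) (S.erase x)) +
      ‖p‖ * Real.exp (1 / (64 * Δ ^ 4) *
        phi G (1 / (8 * Δ)) (1 / (8 * Δ ^ 2)) (S.erase x ∪ G.neighborFinset x)) ≤
      (1 - 1 / (4 * 512 * Δ ^ 6)) *
        Real.exp (1 / (64 * Δ ^ 4) * phi G (1 / (8 * Δ)) (1 / (8 * Δ ^ 2)) S) := by
  obtain ⟨D, T, hD, hT, hD', hT', hdr⟩ := drift G Δ hΔ hG S x hx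
  have hΔr : (2 : ℝ) ≤ Δ := by exact_mod_cast hΔ
  set t : ℝ := 1 / (64 * Δ ^ 4) with ht
  have ht0 : 0 < t := by positivity
  set c : ℝ := 1 / (512 * Δ ^ 6) with hc
  have hc0 : 0 < c := by positivity
  have htK : t * (2 * Δ) ≤ 1 := by
    rw [ht, div_mul_eq_mul_div, div_le_one (by positivity)]
    have : (1 : ℝ) ≤ Δ ^ 3 := one_le_pow₀ (by linarith)
    nlinarith
  have htK2 : (t * (2 * Δ)) ^ 2 = c / 2 := by rw [ht, hc]; field_simp; ring
  have hex : ∀ u : ℝ, |u| ≤ 2 * Δ → Real.exp (t * u) ≤ 1 + t * u + c / 2 ∧ Real.exp (t * u) ≤ 3 := by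
    intro u hu
    have h2 : |t * u| ≤ t * (2 * Δ) := by
      rw [abs_mul, abs_of_pos ht0]; exact mul_le_mul_of_nonneg_left hu ht0.le
    have h3 := Real.abs_exp_sub_one_sub_id_le (h2.trans htK)
    have h4 : (t * u) ^ 2 ≤ (t * (2 * Δ)) ^ 2 := by
      rw [← sq_abs (t * u)]; exact pow_le_pow_left₀ (abs_nonneg _) h2 2
    have h5 := (abs_le.1 h3).2
    have h6 := (abs_le.1 (h2.trans htK)).2
    have h7 : (t * (2 * Δ)) ^ 2 ≤ 1 := pow_le_one₀ (by positivity) htK
    constructor <;> linarith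
  set E := Real.exp (t * phi G (1 / (8 * Δ)) (1 / (8 * Δ ^ 2)) S) with hE
  have hE0 : 0 < E := Real.exp_pos _
  have e1 : Real.exp (t * phi G (1 / (8 * Δ)) (1 / (8 * Δ ^ 2)) (S.erase x)) ≤ Real.exp (t * D) * E := by
    rw [hE, ← Real.exp_add, Real.exp_le_exp]
    have := mul_le_mul_of_nonneg_left hD ht0.le
    linarith
  have e2 : Real.exp (t * phi G (1 / (8 * Δ)) (1 / (8 * Δ ^ 2)) (S.erase x ∪ G.neighborFinset x)) ≤
      Real.exp (t * T) * E := by
    rw [hE, ← Real.exp_add, Real.exp_le_exp]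
    have := mul_le_mul_of_nonneg_left hT ht0.le
    linarith
  have hδ : (1 : ℝ) / (24 * 512 * Δ ^ 6) = c / 24 := by rw [hc]; field_simp
  have hg : (1 : ℝ) / (4 * 512 * Δ ^ 6) = c / 4 := by rw [hc]; field_simp
  rw [hδ] at hp
  rw [hg]
  have hp01 : p0 ≤ 1 := by nlinarith
  have n1 : ‖1 - p‖ ≤ (1 - p0) + c / 24 := by
    have : (1 : ℂ) - p = ((1 - p0 : ℝ) : ℂ) - (p - p0) := by push_cast; ring
    rw [this]
    refine (norm_sub_le _ _).trans ?_
    rw [Complex.norm_real, Real.norm_eq_abs, abs_of_nonneg (by linarith)]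
    linarith
  have n2 : ‖p‖ ≤ p0 + c / 24 := by
    have : p = (p0 : ℂ) + (p - p0) := by ring
    rw [this]
    refine (norm_add_le _ _).trans ?_
    rw [Complex.norm_real, Real.norm_eq_abs, abs_of_nonneg h0]
    linarith
  obtain ⟨a1, a2⟩ := hex D hD'
  obtain ⟨b1, b2⟩ := hex T hT'
  have hdr' := mul_le_mul_of_nonneg_left (hdr p0 h0 h1) ht0.le
  have htc : t * -(1 / (8 * Δ ^ 2)) = -c := by rw [ht, hc]; field_simp; ring
  rw [htc] at hdr'
  have main : ((1 - p0) + c / 24) * Real.exp (t * D) + (p0 + c / 24) * Real.exp (t * T) ≤ 1 - c / 4 := by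
    have k1 := mul_le_mul_of_nonneg_left a1 (sub_nonneg.2 hp01)
    have k2 := mul_le_mul_of_nonneg_left b1 h0
    have k3 := mul_le_mul_of_nonneg_left a2 (show 0 ≤ c / 24 by positivity)
    have k4 := mul_le_mul_of_nonneg_left b2 (show 0 ≤ c / 24 by positivity)
    nlinarith
  calc _ ≤ ((1 - p0) + c / 24) * (Real.exp (t * D) * E) + (p0 + c / 24) * (Real.exp (t * T) * E) := by
        gcongr
    _ = (((1 - p0) + c / 24) * Real.exp (t * D) + (p0 + c / 24) * Real.exp (t * T)) * E := by ring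
    _ ≤ _ := mul_le_mul_of_nonneg_right main hE0.le

end Aux

open Classical in
theorem result (Δ : ℕ) (hΔ : 2 ≤ Δ) :
    ∃ D : Set ℂ, IsOpen D ∧ IsConnected D ∧ (-1 : ℂ) ∉ D ∧
      (∀ r : ℝ, 0 ≤ r → r ≤ 1 / ((Δ : ℝ) - 1) → (r : ℂ) ∈ D) ∧
      ∀ (V : Type) [Fintype V] [DecidableEq V] [Nonempty V] (G : SimpleGraph V),
        G.maxDegree ≤ Δ → ∀ w : V → ℂ, (∀ x, w x ∈ D) → SprLtOne (glauber G w) := by
  have hΔr : (2 : ℝ) ≤ Δ := by exact_mod_cast hΔ
  set δ : ℝ := 1 / (48 * 512 * Δ ^ 6) with hδ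
  have hδ0 : 0 < δ := by positivity
  have hδ1 : δ ≤ 1 / 2 := by
    rw [hδ]
    apply one_div_le_one_div_of_le (by norm_num)
    have : (1 : ℝ) ≤ Δ ^ 6 := one_le_pow₀ (by linarith)
    nlinarith
  set K : Set ℂ := segment ℝ (0 : ℂ) (((1 / ((Δ : ℝ) - 1) : ℝ)) : ℂ) with hK
  have hL : 0 < 1 / ((Δ : ℝ) - 1) := by apply one_div_pos.2; linarith
  have hKmem : ∀ z, z ∈ K ↔ ∃ r : ℝ, 0 ≤ r ∧ r ≤ 1 / ((Δ : ℝ) - 1) ∧ z = r := by
    intro z
    constructor
    · rintro ⟨a, b, ha, hb, hab, rfl⟩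
      refine ⟨b * (1 / ((Δ : ℝ) - 1)), by positivity, ?_, by simp⟩
      nlinarith
    · rintro ⟨r, h0, h1, rfl⟩
      refine ⟨1 - r / (1 / ((Δ : ℝ) - 1)), r / (1 / ((Δ : ℝ) - 1)), ?_, by positivity, by ring, ?_⟩
      · rw [sub_nonneg, div_le_one hL]; exact h1
      · rw [smul_zero, zero_add, Complex.real_smul, ← Complex.ofReal_mul, div_mul_cancel₀ _ hL.ne']
  have hD : ∀ z ∈ Metric.thickening δ K, 1 + z ≠ 0 ∧ ∃ p0 : ℝ, 0 ≤ p0 ∧ p0 * Δ ≤ 1 ∧
      ‖z / (1 + z) - p0‖ ≤ 1 / (24 * 512 * Δ ^ 6) := by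
    intro z hz
    obtain ⟨y, hy, hzy⟩ := Metric.mem_thickening_iff.1 hz
    obtain ⟨r, h0, h1, rfl⟩ := (hKmem y).1 hy
    rw [dist_eq_norm] at hzy
    have n1 : ‖(1 : ℂ) + r‖ = 1 + r := by
      rw [show (1 : ℂ) + r = ((1 + r : ℝ) : ℂ) by push_cast; ring, Complex.norm_real, Real.norm_eq_abs,
        abs_of_nonneg (by linarith)]
    have n2 : 1 / 2 ≤ ‖1 + z‖ := by
      have : (1 : ℂ) + r = (1 + z) - (z - r) := by ring
      have h2 := norm_sub_le (1 + z) (z - r)
      rw [← this, n1] at h2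
      linarith
    have hz0 : 1 + z ≠ 0 := by
      intro h; rw [h, norm_zero] at n2; linarith
    have hr0 : (1 : ℂ) + r ≠ 0 := by
      intro h; rw [h, norm_zero] at n1; linarith
    refine ⟨hz0, r / (1 + r), by positivity, ?_, ?_⟩
    · rw [div_mul_eq_mul_div, div_le_one (by linarith)]
      rw [le_div_iff₀ (by linarith)] at h1
      linarith
    · have : z / (1 + z) - ((r / (1 + r) : ℝ) : ℂ) = (z - r) / ((1 + z) * (1 + r)) := by
        push_cast; field_simp; ring
      rw [this, norm_div, norm_mul, n1, div_le_iff₀ (by positivity)]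
      have h2 : (1 : ℝ) / (24 * 512 * Δ ^ 6) = 2 * δ := by rw [hδ]; field_simp; ring
      rw [h2]
      have : 1 / 2 * 1 ≤ ‖1 + z‖ * (1 + r) := mul_le_mul n2 (by linarith) (by norm_num) (norm_nonneg _)
      nlinarith
  refine ⟨Metric.thickening δ K, Metric.isOpen_thickening, ?_, ?_, ?_, ?_⟩
  · refine ((convex_segment _ _).thickening δ).isConnected ⟨0, ?_⟩
    exact Metric.self_subset_thickening hδ0 _ (left_mem_segment _ _ _)
  · intro h
    exact (hD _ h).1 (by ring)
  · intro r h0 h1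
    exact Metric.self_subset_thickening hδ0 _ ((hKmem _).2 ⟨r, h0, h1, rfl⟩)
  intro V _ _ _ G hG w hw
  have hdeg : ∀ v, G.degree v ≤ Δ := fun v => (G.degree_le_maxDegree v).trans hG
  have hw0 : ∀ x, 1 + w x ≠ 0 := fun x => (hD _ (hw x)).1
  set W : Finset V → ℝ := fun S =>
    Real.exp (1 / (64 * Δ ^ 4) * phi G (1 / (8 * Δ)) (1 / (8 * Δ ^ 2)) S) with hWdef
  have hW : ∀ S, 0 < W S := fun S => Real.exp_pos _
  set g : ℝ := 1 - 1 / (4 * 512 * Δ ^ 6) with hg
  have hg1 : g < 1 := by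
    have : (0 : ℝ) < 1 / (4 * 512 * Δ ^ 6) := by positivity
    linarith
  have hg0 : 0 ≤ g := by
    rw [hg, sub_nonneg, div_le_one (by positivity)]
    have : (1 : ℝ) ≤ Δ ^ 6 := one_le_pow₀ (by linarith)
    nlinarith
  have hc : ∀ S x, x ∈ S → ‖1 - w x / (1 + w x)‖ * W (S.erase x) +
      ‖w x / (1 + w x)‖ * W (S.erase x ∪ G.neighborFinset x) ≤ g * W S := by
    intro S x hx
    obtain ⟨p0, a, b, c⟩ := (hD _ (hw x)).2
    exact contr Δ hΔ hdeg _ p0 a b c S x hx
  have hn : (1 : ℝ) ≤ Fintype.card V := by exact_mod_cast Fintype.card_pos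
  set γ : ℝ := 1 - (1 - g) / Fintype.card V with hγ
  have hγ0 : 0 ≤ γ := by rw [hγ, sub_nonneg, div_le_one (by linarith)]; linarith
  have hγ1 : γ < 1 := by
    have : 0 < (1 - g) / Fintype.card V := div_pos (by linarith) (by linarith)
    linarith
  have hstep : ∀ {F : Omega G → ℂ} {r : ℝ}, Rep G W F r → Rep G W ((glauber G w).mulVec F) (γ * r) :=
    fun h => rep_step hW w hw0 hg0 hg1.le hc h
  obtain ⟨S1, -, hS1⟩ := Finset.exists_min_image (univ : Finset (Finset V)) W ⟨∅, Finset.mem_univ _⟩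
  have hosc : ∀ {F : Omega G → ℂ} {r : ℝ}, Rep G W F r → ∀ I J, W S1 * ‖F I - F J‖ ≤ 2 * r :=
    fun h I J => rep_osc (hW S1).le (fun S => hS1 S (Finset.mem_univ _)) h I J
  have hconst : ∀ F : Omega G → ℂ, (∀ I J, F I = F J) → F ∈ Submodule.span ℂ {(1 : Omega G → ℂ)} := by
    intro F hF
    rw [Submodule.mem_span_singleton]
    exact ⟨F ⟨∅, by simp⟩, by funext I; simp [hF I ⟨∅, by simp⟩]⟩
  have hle : Submodule.span ℂ {(1 : Omega G → ℂ)} ≤
      (Submodule.span ℂ {(1 : Omega G → ℂ)}).comap (Matrix.mulVecLin (glauber G w)) := by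
    rw [Submodule.span_le, Set.singleton_subset_iff]
    apply hconst
    intro I J
    have h1 := hosc (hstep (Rep.const (G := G) (W := W) 1)) I J
    rw [mul_zero, mul_zero] at h1
    have h2 : ‖(glauber G w).mulVec (fun _ => (1 : ℂ)) I - (glauber G w).mulVec (fun _ => (1 : ℂ)) J‖ ≤ 0 :=
      le_of_mul_le_mul_left (by simpa using h1) (hW S1)
    exact sub_eq_zero.1 (norm_le_zero_iff.1 h2)
  refine ⟨Submodule.mapQ _ _ (Matrix.mulVecLin (glauber G w)) hle, fun f => rfl, ?_⟩
  have hbound : ∀ μ ∈ spectrum ℂ (Submodule.mapQ _ _ (Matrix.mulVecLin (glauber G w)) hle :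
      Module.End ℂ ((Omega G → ℂ) ⧸ Submodule.span ℂ {(1 : Omega G → ℂ)})), ‖μ‖ ≤ γ := by
    intro μ hμ
    by_contra hlt
    push Not at hlt
    have hμ0 : 0 < ‖μ‖ := lt_of_le_of_lt hγ0 hlt
    have hμ0' : μ ≠ 0 := norm_pos_iff.1 hμ0
    obtain ⟨v, hv⟩ := (Module.End.hasEigenvalue_iff_mem_spectrum.2 hμ).exists_hasEigenvector
    obtain ⟨f, rfl⟩ := Submodule.Quotient.mk_surjective _ v
    have h1 := hv.apply_eq_smul
    rw [Submodule.mapQ_apply, ← Submodule.Quotient.mk_smul, Submodule.Quotient.eq,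
      Submodule.mem_span_singleton] at h1
    obtain ⟨c, hc⟩ := h1
    have hf : f = μ⁻¹ • ((glauber G w).mulVec f + fun _ => -c) := by
      funext I
      have := congrFun hc I
      simp only [Pi.smul_apply, Pi.one_apply, smul_eq_mul, mul_one, Pi.sub_apply,
        Matrix.mulVecLin_apply] at this
      simp only [Pi.smul_apply, Pi.add_apply, smul_eq_mul]
      rw [this]; field_simp; ring
    have h0 : Rep G W f (W univ * ‖f‖) :=
      rep_atom hW univ f ‖f‖ (fun I J h => by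
        congr 1; apply Subtype.ext; ext y; exact h y (Finset.mem_univ _)) (norm_nonneg _)
        (fun I => norm_le_pi_norm f I)
    have hk : ∀ k : ℕ, Rep G W f ((γ / ‖μ‖) ^ k * (W univ * ‖f‖)) := by
      intro k
      induction k with
      | zero => simpa using h0
      | succ k ih =>
        have := rep_smul (Rep.add _ _ _ _ (hstep ih) (Rep.const (-c))) μ⁻¹
        rw [← hf] at this
        refine Rep.mono _ _ _ this (le_of_eq ?_)
        rw [norm_inv, pow_succ]; field_simp; ring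
    apply hv.2
    rw [Submodule.Quotient.mk_eq_zero]
    apply hconst
    intro I J
    have hlim : Filter.Tendsto (fun k : ℕ => 2 * ((γ / ‖μ‖) ^ k * (W univ * ‖f‖))) Filter.atTop
        (nhds (2 * (0 * (W univ * ‖f‖)))) :=
      ((tendsto_pow_atTop_nhds_zero_of_lt_one (by positivity)
        ((div_lt_one hμ0).2 hlt)).mul_const _).const_mul _
    have h2 := ge_of_tendsto' hlim (fun k => hosc (hk k) I J)
    have h3 : ‖f I - f J‖ ≤ 0 := le_of_mul_le_mul_left (by simpa using h2) (hW S1)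
    exact sub_eq_zero.1 (norm_le_zero_iff.1 h3)
  refine lt_of_le_of_lt (b := ((γ.toNNReal : NNReal) : ENNReal)) ?_ ?_
  · unfold spectralRadius
    refine iSup₂_le fun μ hμ => ?_
    exact ENNReal.coe_le_coe.2 ((Real.le_toNNReal_iff_coe_le hγ0).2 (hbound μ hμ))
  · exact ENNReal.coe_lt_one_iff.2 (Real.toNNReal_lt_one.2 hγ1)

end Pool.Agent.Results.MP_eb4d96_pr.Contraction
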